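import Mathlib

/-!
# MP_c59173_co : the box theorem fails for product sets in noncommutative groups

For a group `G` and finite non-empty `S₁, …, Sₙ ⊆ G` the problem asks whether there always are
positive reals `λ₁, …, λₙ` with product `|S₁ ⋆ ⋯ ⋆ Sₙ|` and `∏_{i ∈ A} λᵢ ≤ N_A` for every
`A ⊆ [n]`.  We show that the answer is no, already for `n = 4`, because the inequality
`|S₁ S₂ S₃ S₄| ≤ N_{13} N_{24}`, which such reals would imply, fails by an unbounded factor.

The counterexample lives in a Heisenberg group `(a, b, c)`, `a, b ∈ (ℤ/m)^(ℤ/m)`, `c ∈ ℤ/m`: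
`S₁ = {(0, b, 0)}`, `S₂ = {(i eᵢ, 0, 0)}`, `S₃ = {(0, eⱼ, 0)}`, `S₄ = {(a, 0, 0)}`.
The product set is the whole group, of order `m^(2m+1)`, while `N_{13}, N_{24} ≤ 2 m^m`.
-/

namespace Pool.Agent.Results.MP_c59173_co.HeisenbergBox

open Finset

/-- The product set `S₁ ⋆ ⋯ ⋆ Sₙ = {s₁ ⋆ ⋯ ⋆ sₙ : sᵢ ∈ Sᵢ}`, factors in this order. -/
noncomputable def prodSet {G : Type*} [Group G] {n : ℕ} (S : Fin n → Finset G) : Finset G := by
  classical exact (Fintype.piFinset S).image (fun s => (List.ofFn s).prod)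

/-- `N_A`: the largest size of a product set obtained from `S₁ ⋆ ⋯ ⋆ Sₙ` by keeping `Sᵢ` for
`i ∈ A` and replacing `Sᵢ` by a singleton `{xᵢ}`, `xᵢ ∈ Sᵢ`, for `i ∉ A`. -/
noncomputable def N {G : Type*} [Group G] {n : ℕ} (S : Fin n → Finset G)
    (A : Finset (Fin n)) : ℕ :=
  (Fintype.piFinset S).sup fun x => (prodSet fun i => if i ∈ A then S i else {x i}).card

/-- The statement of Q1. -/
def BoxStatement : Prop :=
  ∀ (G : Type) [Group G] (n : ℕ), 1 ≤ n → ∀ S : Fin n → Finset G, (∀ i, (S i).Nonempty) →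
    ∃ l : Fin n → ℝ, (∀ i, 0 < l i) ∧ ∏ i, l i = ((prodSet S).card : ℝ) ∧
      ∀ A : Finset (Fin n), ∏ i ∈ A, l i ≤ (N S A : ℝ)

/-! ### The Heisenberg group -/

/-- The Heisenberg group with coordinate vectors indexed by `ℤ/m`. -/
@[ext] structure Hb (m : ℕ) where
  a : ZMod m → ZMod m
  b : ZMod m → ZMod m
  c : ZMod m

variable {m : ℕ} [NeZero m]

instance : Group (Hb m) where
  mul x y := ⟨x.a + y.a, x.b + y.b, x.c + y.c + ∑ i, x.a i * y.b i⟩
  one := ⟨0, 0, 0⟩
  inv x := ⟨-x.a, -x.b, -x.c + ∑ i, x.a i * x.b i⟩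
  mul_assoc x y z := by
    refine Hb.ext (add_assoc _ _ _) (add_assoc _ _ _) ?_
    change (x.c + y.c + ∑ i, x.a i * y.b i) + z.c + ∑ i, (x.a + y.a) i * z.b i
      = x.c + (y.c + z.c + ∑ i, y.a i * z.b i) + ∑ i, x.a i * (y.b + z.b) i
    simp only [Pi.add_apply, add_mul, mul_add, Finset.sum_add_distrib]
    ring
  one_mul x := by
    refine Hb.ext (zero_add _) (zero_add _) ?_
    change (0 : ZMod m) + x.c + ∑ i, (0 : ZMod m → ZMod m) i * x.b i = x.c
    simp
  mul_one x := by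
    refine Hb.ext (add_zero _) (add_zero _) ?_
    change x.c + (0 : ZMod m) + ∑ i, x.a i * (0 : ZMod m → ZMod m) i = x.c
    simp
  inv_mul_cancel x := by
    refine Hb.ext (neg_add_cancel _) (neg_add_cancel _) ?_
    change (-x.c + ∑ i, x.a i * x.b i) + x.c + ∑ i, (-x.a) i * x.b i = 0
    simp only [Pi.neg_apply, neg_mul, Finset.sum_neg_distrib]
    ring

theorem mul_def (x y : Hb m) :
    x * y = ⟨x.a + y.a, x.b + y.b, x.c + y.c + ∑ i, x.a i * y.b i⟩ := rfl

/-- coordinates -/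
def coord : Hb m ≃ (ZMod m → ZMod m) × (ZMod m → ZMod m) × ZMod m where
  toFun x := (x.a, x.b, x.c)
  invFun p := ⟨p.1, p.2.1, p.2.2⟩
  left_inv _ := rfl
  right_inv _ := rfl

noncomputable instance : Fintype (Hb m) := by
  classical exact Fintype.ofEquiv _ coord.symm

noncomputable instance : DecidableEq (Hb m) := Classical.decEq _

theorem card_Hb : Fintype.card (Hb m) = m ^ m * (m ^ m * m) := by
  classical
  rw [Fintype.card_congr (coord (m := m))]
  simp [ZMod.card]

/-- `(0, b, 0)` -/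
def fB (b : ZMod m → ZMod m) : Hb m := ⟨0, b, 0⟩
/-- `(a, 0, 0)` -/
def fA (a : ZMod m → ZMod m) : Hb m := ⟨a, 0, 0⟩
/-- the `j`-th unit vector -/
def e (j : ZMod m) : ZMod m → ZMod m := Pi.single j 1
/-- `i` times the `i`-th unit vector -/
def ie (i : ZMod m) : ZMod m → ZMod m := Pi.single i i

theorem prod4 (b a : ZMod m → ZMod m) (i j : ZMod m) :
    fB b * (fA (ie i) * (fB (e j) * (fA a * 1))) =
      ⟨ie i + a, b + e j, if i = j then i else 0⟩ := by
  have h1 : fA a * 1 = fA a := mul_one _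
  rw [h1]
  refine Hb.ext ?_ ?_ ?_
  · simp [mul_def, fB, fA]
  · simp [mul_def, fB, fA]
  · simp only [mul_def, fB, fA, Pi.zero_apply, mul_zero, zero_mul, Finset.sum_const_zero,
      add_zero, zero_add]
    simp only [ie, e, Pi.single_apply, ite_mul, zero_mul]
    by_cases hij : i = j
    · subst hij; simp
    · rw [if_neg hij]
      apply Finset.sum_eq_zero
      intro k _
      by_cases hk : k = i
      · subst hk; simp [hij]
      · simp [hk]

/-- The four sets. -/
noncomputable def S (m : ℕ) [NeZero m] : Fin 4 → Finset (Hb m) :=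
  ![univ.image fB, univ.image (fun i => fA (ie i)), univ.image (fun j => fB (e j)),
    univ.image fA]

theorem S_nonempty (i : Fin 4) : (S m i).Nonempty := by
  fin_cases i <;> simp [S]

theorem ofFn4 (s : Fin 4 → Hb m) : (List.ofFn s).prod = s 0 * (s 1 * (s 2 * (s 3 * 1))) := by
  simp [List.ofFn_succ]

theorem mem_prodSet {T : Fin 4 → Finset (Hb m)} {g : Hb m} :
    g ∈ prodSet T ↔ ∃ s : Fin 4 → Hb m, (∀ i, s i ∈ T i) ∧ s 0 * (s 1 * (s 2 * (s 3 * 1))) = g := by
  simp only [prodSet, mem_image, Fintype.mem_piFinset, ofFn4]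

theorem prodSet_S : prodSet (S m) = univ := by
  rw [eq_univ_iff_forall]
  intro g
  rw [mem_prodSet]
  refine ⟨![fB (g.b - e g.c), fA (ie g.c), fB (e g.c), fA (g.a - ie g.c)], ?_, ?_⟩
  · intro i
    fin_cases i <;> simp [S]
  · change fB (g.b - e g.c) * (fA (ie g.c) * (fB (e g.c) * (fA (g.a - ie g.c) * 1))) = g
    rw [prod4]
    exact Hb.ext (by simp) (by simp) (by simp)

theorem card_prodSet_S : (prodSet (S m)).card = m ^ m * (m ^ m * m) := by
  rw [prodSet_S, card_univ, card_Hb]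

theorem N02 : N (S m) {0, 2} ≤ m ^ m * 2 := by
  refine Finset.sup_le fun x hx => ?_
  rw [Fintype.mem_piFinset] at hx
  obtain ⟨i, -, hi⟩ := mem_image.1 (show x 1 ∈ univ.image (fun i => fA (ie i)) from hx 1)
  obtain ⟨a0, -, ha⟩ := mem_image.1 (show x 3 ∈ univ.image fA from hx 3)
  have hsub : prodSet (fun k => if k ∈ ({0, 2} : Finset (Fin 4)) then S m k else {x k}) ⊆
      ((univ : Finset (ZMod m → ZMod m)) ×ˢ ({0, i} : Finset (ZMod m))).image
        (fun p => (⟨ie i + a0, p.1, p.2⟩ : Hb m)) := by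
    intro g hg
    rw [mem_prodSet] at hg
    obtain ⟨s, hs, rfl⟩ := hg
    have h0' : s 0 ∈ S m 0 := by simpa using hs 0
    have h0 : s 0 ∈ univ.image fB := h0'
    have h1 : s 1 = x 1 := by simpa using hs 1
    have h2' : s 2 ∈ S m 2 := by simpa using hs 2
    have h2 : s 2 ∈ univ.image (fun j => fB (e j)) := h2'
    have h3 : s 3 = x 3 := by simpa using hs 3
    obtain ⟨b, -, hb⟩ := mem_image.1 h0
    obtain ⟨j, -, hj⟩ := mem_image.1 h2
    rw [← hb, h1, ← hi, ← hj, h3, ← ha, prod4]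
    rw [mem_image]
    refine ⟨(b + e j, if i = j then i else 0), ?_, rfl⟩
    rw [mem_product]
    refine ⟨mem_univ _, ?_⟩
    by_cases h : i = j <;> simp [h]
  refine (card_le_card hsub).trans (card_image_le.trans ?_)
  rw [card_product]
  have : (univ : Finset (ZMod m → ZMod m)).card = m ^ m := by simp [ZMod.card]
  rw [this]
  exact Nat.mul_le_mul_left _ card_le_two

theorem N13 : N (S m) {1, 3} ≤ m ^ m * 2 := by
  refine Finset.sup_le fun x hx => ?_
  rw [Fintype.mem_piFinset] at hx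
  obtain ⟨b0, -, hb⟩ := mem_image.1 (show x 0 ∈ univ.image fB from hx 0)
  obtain ⟨j, -, hj⟩ := mem_image.1 (show x 2 ∈ univ.image (fun j => fB (e j)) from hx 2)
  have hsub : prodSet (fun k => if k ∈ ({1, 3} : Finset (Fin 4)) then S m k else {x k}) ⊆
      ((univ : Finset (ZMod m → ZMod m)) ×ˢ ({0, j} : Finset (ZMod m))).image
        (fun p => (⟨p.1, b0 + e j, p.2⟩ : Hb m)) := by
    intro g hg
    rw [mem_prodSet] at hg
    obtain ⟨s, hs, rfl⟩ := hg
    have h0 : s 0 = x 0 := by simpa using hs 0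
    have h1' : s 1 ∈ S m 1 := by simpa using hs 1
    have h1 : s 1 ∈ univ.image (fun i => fA (ie i)) := h1'
    have h2 : s 2 = x 2 := by simpa using hs 2
    have h3' : s 3 ∈ S m 3 := by simpa using hs 3
    have h3 : s 3 ∈ univ.image fA := h3'
    obtain ⟨i, -, hi⟩ := mem_image.1 h1
    obtain ⟨a, -, ha⟩ := mem_image.1 h3
    rw [h0, ← hb, ← hi, h2, ← hj, ← ha, prod4]
    rw [mem_image]
    refine ⟨(ie i + a, if i = j then i else 0), ?_, rfl⟩
    rw [mem_product]
    refine ⟨mem_univ _, ?_⟩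
    by_cases h : i = j <;> simp [h]
  refine (card_le_card hsub).trans (card_image_le.trans ?_)
  rw [card_product]
  have : (univ : Finset (ZMod m → ZMod m)).card = m ^ m := by simp [ZMod.card]
  rw [this]
  exact Nat.mul_le_mul_left _ card_le_two

/-- The product set is larger than `(m / 4) N_{13} N_{24}`. -/
theorem ratio : m * (N (S m) {0, 2} * N (S m) {1, 3}) ≤ 4 * (prodSet (S m)).card := by
  rw [card_prodSet_S]
  have h := Nat.mul_le_mul_left m (Nat.mul_le_mul (N02 (m := m)) (N13 (m := m)))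
  refine h.trans (le_of_eq ?_)
  generalize m ^ m = q
  ring

theorem prodSet_pos : 0 < (prodSet (S m)).card := by
  rw [card_prodSet_S]
  have := NeZero.pos m
  have h2 : 0 < m ^ m := Nat.pow_pos this
  exact Nat.mul_pos h2 (Nat.mul_pos h2 this)

/-- **The box theorem fails for product sets in groups.**  For every real `C` there are a group
`G` and four non-empty finite sets with `|S₁S₂S₃S₄| > C · N_{13} · N_{24}` (indices `0,…,3` in
Lean); hence the statement of Q1 is false. -/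
theorem result :
    (∀ C : ℝ, ∃ (G : Type) (_ : Group G) (T : Fin 4 → Finset G), (∀ i, (T i).Nonempty) ∧
      C * ((N T {0, 2} : ℝ) * (N T {1, 3} : ℝ)) < ((prodSet T).card : ℝ)) ∧
    ¬ BoxStatement := by
  have key : ∀ C : ℝ, ∃ (G : Type) (_ : Group G) (T : Fin 4 → Finset G),
      (∀ i, (T i).Nonempty) ∧
      C * ((N T {0, 2} : ℝ) * (N T {1, 3} : ℝ)) < ((prodSet T).card : ℝ) := by
    intro C
    obtain ⟨k, hk⟩ := exists_nat_gt (4 * C)
    refine ⟨Hb (k + 1), inferInstance, S (k + 1), S_nonempty, ?_⟩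
    have h1 := ratio (m := k + 1)
    have h2 := prodSet_pos (m := k + 1)
    have h1' : ((k + 1 : ℕ) : ℝ) * ((N (S (k + 1)) {0, 2} : ℝ) * (N (S (k + 1)) {1, 3} : ℝ)) ≤
        4 * ((prodSet (S (k + 1))).card : ℝ) := by exact_mod_cast h1
    have h2' : (0 : ℝ) < ((prodSet (S (k + 1))).card : ℝ) := by exact_mod_cast h2
    have h3 : (0 : ℝ) ≤ (N (S (k + 1)) {0, 2} : ℝ) * (N (S (k + 1)) {1, 3} : ℝ) := by positivity
    push_cast at h1'
    rcases h3.eq_or_lt with h | h
    · rw [← h, mul_zero]; exact h2'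
    · nlinarith
  refine ⟨key, fun hbox => ?_⟩
  obtain ⟨G, _, T, hT, hlt⟩ := key 1
  obtain ⟨l, hl, hprod, hA⟩ := hbox G 4 (by norm_num) T hT
  have h1 := hA {0, 2}
  have h2 := hA {1, 3}
  rw [prod_pair (by decide)] at h1 h2
  rw [Fin.prod_univ_four] at hprod
  have h3 : l 0 * l 2 * (l 1 * l 3) ≤ (N T {0, 2} : ℝ) * (N T {1, 3} : ℝ) :=
    mul_le_mul h1 h2 (mul_nonneg (hl 1).le (hl 3).le) (Nat.cast_nonneg _)
  have h4 : l 0 * l 2 * (l 1 * l 3) = ((prodSet T).card : ℝ) := by rw [← hprod]; ring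
  linarith

end Pool.Agent.Results.MP_c59173_co.HeisenbergBox
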